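import Pool.Agent.Q44.MX.StmE

/-! # Project MX, job TZ (statement in `Pool/Agent/Q44/MX/StmE.lean`) -/

set_option autoImplicit false

namespace Q137.MX

open Finset Module
open Q44.JQ (Cr ct pr pr_neg ct_neg VV mem_VV)
open Q44.MX
open scoped Classical

/-! ### the exponents modulo two -/

lemma ct_mul {T : Finset ℕ} (hT : ∀ p ∈ T, p.Prime) {z z' : ℤ} (hz : z ≠ 0) (hz' : z' ≠ 0) :
    (ct (z * z') : Option T → ZMod 2) = ct z + ct z' := by
  funext o
  cases o with
  | none =>
    simp only [ct, Option.elim, Pi.add_apply]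
    rcases lt_or_gt_of_ne hz with h | h <;> rcases lt_or_gt_of_ne hz' with h' | h'
    · rw [if_neg (not_lt.2 (mul_pos_of_neg_of_neg h h').le), if_pos h, if_pos h']
      decide
    · rw [if_pos (mul_neg_of_neg_of_pos h h'), if_pos h, if_neg (not_lt.2 h'.le)]
      decide
    · rw [if_pos (mul_neg_of_pos_of_neg h h'), if_neg (not_lt.2 h.le), if_pos h']
      decide
    · rw [if_neg (not_lt.2 (mul_pos h h').le), if_neg (not_lt.2 h.le), if_neg (not_lt.2 h'.le)]
      decide
  | some t =>
    simp only [ct, Option.elim, Pi.add_apply]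
    have : Fact (t : ℕ).Prime := ⟨hT t t.2⟩
    rw [padicValInt.mul hz hz']
    push_cast
    rfl

lemma ct_one {T : Finset ℕ} : (ct 1 : Option T → ZMod 2) = 0 := by
  funext o
  cases o with
  | none => simp [ct]
  | some t => simp [ct]

lemma ct_prod {T : Finset ℕ} (hT : ∀ p ∈ T, p.Prime) {κ : Type} (s : Finset κ) (f : κ → ℤ)
    (hf : ∀ k ∈ s, f k ≠ 0) : (ct (∏ k ∈ s, f k) : Option T → ZMod 2) = ∑ k ∈ s, ct (f k) := by
  induction s using Finset.induction_on with
  | empty => rw [prod_empty, sum_empty, ct_one]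
  | insert k s hk ih =>
      rw [prod_insert hk, sum_insert hk, ct_mul hT (hf k (mem_insert_self k s))
        (prod_ne_zero_iff.2 fun j hj => hf j (mem_insert_of_mem hj)),
        ih fun j hj => hf j (mem_insert_of_mem hj)]

/-- squares -/
lemma sq_iff {T : Finset ℕ} (hT : ∀ p ∈ T, p.Prime) {z : ℤ} (hz : z ≠ 0)
    (hs : ∀ p : ℕ, p.Prime → (p : ℤ) ∣ z → p ∈ T) :
    IsSquare z ↔ (ct z : Option T → ZMod 2) = 0 := by
  constructor
  · rintro ⟨w, rfl⟩
    have hw : w ≠ 0 := fun h => hz (by rw [h]; simp)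
    rw [ct_mul hT hw hw]
    funext o
    exact CharTwo.add_self_eq_zero _
  · intro h
    have h0 := congrFun h none
    simp only [ct, Option.elim, Pi.zero_apply] at h0
    have hpos : 0 < z := by
      rcases lt_or_gt_of_ne hz with h1 | h1
      · rw [if_pos h1] at h0
        exact absurd h0 (by decide)
      · exact h1
    obtain ⟨n, rfl⟩ : ∃ n : ℕ, z = n := ⟨z.toNat, (Int.toNat_of_nonneg hpos.le).symm⟩
    have hn : n ≠ 0 := by
      rintro rfl
      simp at hz
    have hsq : IsSquare n := by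
      rw [← Nat.prod_factorization_pow_eq_self hn]
      unfold Finsupp.prod
      apply Finset.isSquare_prod
      intro p hp
      rw [Nat.support_factorization, Nat.mem_primeFactors] at hp
      have hpT : p ∈ T := hs p hp.1 (by exact_mod_cast hp.2.1)
      have h1 := congrFun h (some ⟨p, hpT⟩)
      simp only [ct, Option.elim, Pi.zero_apply] at h1
      rw [ZMod.natCast_eq_zero_iff] at h1
      have h2 : padicValInt p (n : ℤ) = n.factorization p := by
        rw [padicValInt.of_nat, Nat.factorization_def _ hp.1]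
      rw [h2] at h1
      exact (even_iff_two_dvd.2 h1).isSquare_pow p
    obtain ⟨m, hm⟩ := hsq
    exact ⟨(m : ℤ), by rw [hm]; push_cast; ring⟩

/-! ### the operator -/

lemma TT_zero_iff {T : Finset ℕ} (c : Cr T) (φ : Option T → ZMod 2) :
    c.TT φ = 0 ↔ ∀ x : Fin (2 * c.g + 1) → ZMod 2, ∑ i, x i = 0 → ∀ i, c.tf φ x i = 0 := by
  constructor
  · intro h x hx i
    have h1 : c.TT φ ⟨x, hx⟩ = 0 := by rw [h]; rfl
    exact congrFun (congrArg Subtype.val h1) i
  · intro h
    refine LinearMap.ext fun x => ?_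
    exact Subtype.ext (funext fun i => h x.1 x.2 i)

lemma pr_neg_one {T : Finset ℕ} (φ : Option T → ZMod 2) : pr φ (-1) = φ none := by
  rw [pr_neg φ one_ne_zero]
  unfold pr
  rw [ct_one]
  simp

/-- the condition for three roots -/
lemma TT_three {T : Finset ℕ} (a : Fin (2 * 1 + 1) → ℤ) (inj : Function.Injective a)
    (supp : ∀ i j, i ≠ j → ∀ p : ℕ, p.Prime → (p : ℤ) ∣ a i - a j → p ∈ T)
    (φ : Option T → ZMod 2) :
    (⟨1, le_rfl, a, inj, supp⟩ : Cr T).TT φ = 0 ↔ φ none = 0 ∧
      ∀ i j : Fin (2 * 1 + 1), i < j → pr φ (a i - a j) = 0 := by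
  rw [TT_zero_iff]
  have hsub : ∀ i j : Fin (2 * 1 + 1), i ≠ j → a i - a j ≠ 0 := fun i j hij =>
    sub_ne_zero.2 fun h => hij (inj h)
  have hneg : ∀ i j : Fin (2 * 1 + 1), i ≠ j → pr φ (a j - a i) = pr φ (a i - a j) + φ none := by
    intro i j hij
    rw [← pr_neg φ (hsub i j hij)]
    congr 1
    ring
  constructor
  · intro h
    have h10 : pr φ (a 1 - a 0) = pr φ (a 0 - a 1) + φ none := hneg 0 1 (by decide)
    have h20 : pr φ (a 2 - a 0) = pr φ (a 0 - a 2) + φ none := hneg 0 2 (by decide)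
    have h21 : pr φ (a 2 - a 1) = pr φ (a 1 - a 2) + φ none := hneg 1 2 (by decide)
    have e0 : (univ : Finset (Fin (2 * 1 + 1))).erase 0 = {1, 2} := by decide
    have e1 : (univ : Finset (Fin (2 * 1 + 1))).erase 1 = {0, 2} := by decide
    have e2 : (univ : Finset (Fin (2 * 1 + 1))).erase 2 = {0, 1} := by decide
    have z1 : ∑ i : Fin (2 * 1 + 1), (![1, 1, 0] : Fin (2 * 1 + 1) → ZMod 2) i = 0 := by decide
    have z2 : ∑ i : Fin (2 * 1 + 1), (![1, 0, 1] : Fin (2 * 1 + 1) → ZMod 2) i = 0 := by decide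
    have hh : ∀ x : Fin (2 * 1 + 1) → ZMod 2, ∑ i, x i = 0 → ∀ i,
        ∑ j ∈ univ.erase i, pr φ (a i - a j) * (x i + x j) + φ none * x i = 0 := h
    have k1 := hh _ z1 0
    have k2 := hh _ z2 0
    have k3 := hh _ z2 1
    have k6 := hh _ z1 1
    rw [e0, sum_pair (by decide)] at k1 k2
    rw [e1, sum_pair (by decide)] at k3 k6
    rw [h10] at k3 k6
    have v1 : (![1, 1, 0] : Fin (2 * 1 + 1) → ZMod 2) 0 = 1 := rfl
    have v2 : (![1, 1, 0] : Fin (2 * 1 + 1) → ZMod 2) 1 = 1 := rfl
    have v3 : (![1, 1, 0] : Fin (2 * 1 + 1) → ZMod 2) 2 = 0 := rfl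
    have v4 : (![1, 0, 1] : Fin (2 * 1 + 1) → ZMod 2) 0 = 1 := rfl
    have v5 : (![1, 0, 1] : Fin (2 * 1 + 1) → ZMod 2) 1 = 0 := rfl
    have v6 : (![1, 0, 1] : Fin (2 * 1 + 1) → ZMod 2) 2 = 1 := rfl
    rw [v1, v2, v3] at k1 k6
    rw [v4, v5, v6] at k2 k3
    have key : ∀ f x y z : ZMod 2, x * (1 + 1) + y * (1 + 0) + f * 1 = 0 →
        x * (1 + 0) + y * (1 + 1) + f * 1 = 0 →
        (x + f) * (0 + 1) + z * (0 + 1) + f * 0 = 0 →
        (x + f) * (1 + 1) + z * (1 + 0) + f * 1 = 0 → f = 0 ∧ x = 0 ∧ y = 0 ∧ z = 0 := by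
      decide
    obtain ⟨m1, m2, m3, m4⟩ := key _ _ _ _ k1 k2 k3 k6
    refine ⟨m1, ?_⟩
    intro i j hij
    fin_cases i <;> fin_cases j
    · exact absurd hij (by decide)
    · exact m2
    · exact m3
    · exact absurd hij (by decide)
    · exact absurd hij (by decide)
    · exact m4
    · exact absurd hij (by decide)
    · exact absurd hij (by decide)
    · exact absurd hij (by decide)
  · rintro ⟨h0, h1⟩ x hx i
    unfold Cr.tf
    simp only []
    rw [h0, zero_mul, add_zero]
    apply sum_eq_zero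
    intro j hj
    have hij : i ≠ j := (ne_of_mem_erase hj).symm
    rcases lt_or_gt_of_ne hij with h | h
    · rw [h1 i j h, zero_mul]
    · rw [hneg j i h.ne, h1 j i h, h0]
      ring

/-! ### counting -/

/-- the relations -/
abbrev Kp (n : ℕ) : Type := Option {p : Fin n × Fin n // p.1 < p.2}

/-- the integers -/
def zk {n : ℕ} (a : Fin n → ℤ) (k : Kp n) : ℤ := k.elim (-1) fun p => a p.1.1 - a p.1.2

/-- the matrix -/
noncomputable def Mk (T : Finset ℕ) {n : ℕ} (a : Fin n → ℤ) : Matrix (Option T) (Kp n) (ZMod 2) :=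
  fun o k => ct (zk a k) o

lemma fcard {α : Type} {f : Fintype α} (p : α → Prop) {d : DecidablePred p} :
    (univ.filter p).card = Nat.card {x // p x} := by
  rw [Nat.card_eq_fintype_card, Fintype.card_subtype]

lemma rank_count {m n : Type} [Fintype m] [Fintype n] (A : Matrix m n (ZMod 2)) :
    Nat.card {y : n → ZMod 2 // A.mulVec y = 0} * 2 ^ A.rank = 2 ^ Fintype.card n := by
  have h1 : Nat.card {y : n → ZMod 2 // A.mulVec y = 0} =
      Nat.card (LinearMap.ker A.mulVecLin) := by
    apply Nat.card_congr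
    refine Equiv.subtypeEquivRight fun y => ?_
    rw [LinearMap.mem_ker, Matrix.mulVecLin_apply]
  have h2 : Nat.card (LinearMap.ker A.mulVecLin) = 2 ^ finrank (ZMod 2) (LinearMap.ker A.mulVecLin) := by
    rw [Nat.card_eq_fintype_card, Module.card_eq_pow_finrank (K := ZMod 2), ZMod.card]
  have h3 := LinearMap.finrank_range_add_finrank_ker A.mulVecLin
  rw [Module.finrank_fintype_fun_eq_card] at h3
  rw [h1, h2, ← pow_add, ← h3]
  congr 1
  unfold Matrix.rank
  omega

lemma sum_Kp {T : Finset ℕ} {n : ℕ} (a : Fin n → ℤ) (e : Bool) (E : Finset (Fin n × Fin n))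
    (hE : ∀ y ∈ E, y.1 < y.2) :
    (Mk T a).mulVec (fun k => k.elim (if e then 1 else 0) fun p => if p.1 ∈ E then 1 else 0) =
      (if e then ct (-1) else 0) + ∑ p ∈ E, ct (a p.1 - a p.2) := by
  funext o
  show ∑ k : Kp n, ct (zk a k) o * _ = _
  rw [Fintype.sum_option]
  simp only [zk, Option.elim, Pi.add_apply, Finset.sum_apply]
  congr 1
  · cases e <;> simp
  · have h1 : ∑ x : {p : Fin n × Fin n // p.1 < p.2}, ct (a x.1.1 - a x.1.2) o *
        (if x.1 ∈ E then 1 else 0) = ∑ p ∈ univ.filter (fun p : Fin n × Fin n => p.1 < p.2),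
          (ct (a p.1 - a p.2) : Option T → ZMod 2) o * (if p ∈ E then 1 else 0) := by
      symm
      apply Finset.sum_subtype
      intro x
      simp
    rw [h1]
    simp only [mul_ite, mul_one, mul_zero]
    rw [← Finset.sum_filter]
    apply sum_congr _ fun _ _ => rfl
    ext p
    rw [mem_filter, mem_filter]
    constructor
    · rintro ⟨-, h⟩
      exact h
    · intro h
      exact ⟨⟨mem_univ _, hE p h⟩, h⟩

lemma sq_rel {T : Finset ℕ} (hT : ∀ p ∈ T, p.Prime) {n : ℕ} (a : Fin n → ℤ)
    (inj : Function.Injective a)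
    (supp : ∀ i j, i ≠ j → ∀ p : ℕ, p.Prime → (p : ℤ) ∣ a i - a j → p ∈ T)
    (e : Bool) (E : Finset (Fin n × Fin n)) (hE : ∀ y ∈ E, y.1 < y.2) :
    IsSquare ((if e then (-1 : ℤ) else 1) * ∏ y ∈ E, (a y.1 - a y.2)) ↔
    (Mk T a).mulVec (fun k => k.elim (if e then 1 else 0) fun p => if p.1 ∈ E then 1 else 0) = 0 := by
  have hf : ∀ y ∈ E, a y.1 - a y.2 ≠ 0 := fun y hy =>
    sub_ne_zero.2 fun h => (hE y hy).ne (inj h)
  have h1 : (if e then (-1 : ℤ) else 1) ≠ 0 := by cases e <;> simp
  have h2 : ∏ y ∈ E, (a y.1 - a y.2) ≠ 0 := prod_ne_zero_iff.2 hf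
  rw [sq_iff hT (mul_ne_zero h1 h2), ct_mul hT h1 h2, ct_prod hT E _ hf, sum_Kp a e E hE]
  · cases e with
    | true => simp only [if_true]
    | false =>
        have : (ct (if false = true then (-1:ℤ) else 1) : Option T → ZMod 2) = 0 := by
          rw [if_neg (by decide), ct_one]
        rw [this]
        simp only [Bool.false_eq_true, if_false]
  · intro p hp hdv
    have hpZ : Prime (p : ℤ) := Nat.prime_iff_prime_int.1 hp
    rcases hpZ.dvd_or_dvd hdv with h | h
    · exfalso
      have h3 : (p : ℤ) ∣ 1 := by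
        cases e
        · simpa using h
        · simpa using h
      exact hpZ.not_isUnit (isUnit_of_dvd_one h3)
    · obtain ⟨y, hy, h3⟩ := (hpZ.dvd_finsetProd_iff _).1 h
      exact supp _ _ (hE y hy).ne p hp h3

lemma sqn_eq {T : Finset ℕ} (hT : ∀ p ∈ T, p.Prime) {n : ℕ} (a : Fin n → ℤ)
    (inj : Function.Injective a)
    (supp : ∀ i j, i ≠ j → ∀ p : ℕ, p.Prime → (p : ℤ) ∣ a i - a j → p ∈ T) :
    sqn a = (univ.filter fun y : Kp n → ZMod 2 => (Mk T a).mulVec y = 0).card := by
  unfold sqn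
  have h01 : ∀ z : ZMod 2, (if z = 1 then (1 : ZMod 2) else 0) = z := by decide
  apply Finset.card_bij' (i := fun (x : Bool × Finset (Fin n × Fin n)) _ =>
      (fun k : Kp n => k.elim (if x.1 then (1 : ZMod 2) else 0) fun p => if p.1 ∈ x.2 then 1 else 0))
    (j := fun (y : Kp n → ZMod 2) _ => (decide (y none = 1),
      (univ : Finset (Fin n × Fin n)).filter (fun p => ∃ h : p.1 < p.2, y (some ⟨p, h⟩) = 1)))
  · rintro ⟨e, E⟩ hx
    rw [mem_filter] at hx ⊢
    exact ⟨mem_univ _, (sq_rel hT a inj supp e E hx.2.1).1 hx.2.2⟩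
  · intro y hy
    rw [mem_filter] at hy ⊢
    have hE : ∀ p ∈ (univ : Finset (Fin n × Fin n)).filter
        (fun p => ∃ h : p.1 < p.2, y (some ⟨p, h⟩) = 1), p.1 < p.2 := by
      intro p hp
      rw [mem_filter] at hp
      exact hp.2.1
    refine ⟨mem_univ _, hE, ?_⟩
    rw [sq_rel hT a inj supp _ _ hE]
    have e1 : (fun k : Kp n => k.elim (if decide (y none = 1) = true then (1 : ZMod 2) else 0)
        fun p => if p.1 ∈ (univ : Finset (Fin n × Fin n)).filter
          (fun p => ∃ h : p.1 < p.2, y (some ⟨p, h⟩) = 1) then 1 else 0) = y := by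
      funext k
      cases k with
      | none =>
        simp only [Option.elim, decide_eq_true_eq]
        exact h01 _
      | some p =>
        simp only [Option.elim, mem_filter, mem_univ, true_and]
        rw [← h01 (y (some p))]
        congr 1
        apply propext
        constructor
        · rintro ⟨_, h⟩
          exact h
        · intro h
          exact ⟨p.2, h⟩
    rw [e1]
    exact hy.2
  · rintro ⟨e, E⟩ hx
    rw [mem_filter] at hx
    refine Prod.ext ?_ ?_
    · cases e <;> simp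
    · ext p
      show p ∈ (univ : Finset (Fin n × Fin n)).filter
        (fun p => ∃ h : p.1 < p.2, (if p ∈ E then (1 : ZMod 2) else 0) = 1) ↔ p ∈ E
      rw [mem_filter]
      constructor
      · rintro ⟨-, h, h2⟩
        by_contra h3
        rw [if_neg h3] at h2
        exact absurd h2 (by decide)
      · intro h
        exact ⟨mem_univ _, hx.2.1 p h, if_pos h⟩
  · intro y hy
    funext k
    cases k with
    | none =>
      simp only [Option.elim, decide_eq_true_eq]
      exact h01 _
    | some p =>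
      simp only [Option.elim, mem_filter, mem_univ, true_and]
      rw [← h01 (y (some p))]
      congr 1
      apply propext
      constructor
      · rintro ⟨_, h⟩
        exact h
      · intro h
        exact ⟨p.2, h⟩

theorem t_TZ : S_TZ := by
  intro T hT c hg
  obtain ⟨g, hg1, a, inj, supp⟩ := c
  simp only at hg
  subst hg
  have h1 : (univ.filter fun φ : Option T → ZMod 2 => (⟨1, hg1, a, inj, supp⟩ : Cr T).TT φ = 0) =
      univ.filter fun φ : Option T → ZMod 2 => ((Mk T a).transpose).mulVec φ = 0 := by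
    ext φ
    rw [mem_filter, mem_filter, TT_three a inj supp φ]
    have hm : ∀ k, ((Mk T a).transpose).mulVec φ k = pr φ (zk a k) := by
      intro k
      show ∑ o, ct (zk a k) o * φ o = ∑ o, φ o * ct (zk a k) o
      exact sum_congr rfl fun o _ => mul_comm _ _
    constructor
    · rintro ⟨-, h2, h3⟩
      refine ⟨mem_univ _, funext fun k => ?_⟩
      rw [hm]
      cases k with
      | none => exact (pr_neg_one φ).trans h2
      | some p => exact h3 _ _ p.2
    · rintro ⟨-, h2⟩
      refine ⟨mem_univ _, ?_, fun i j hij => ?_⟩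
      · rw [← pr_neg_one φ]
        have := congrFun h2 none
        rw [hm] at this
        exact this
      · have := congrFun h2 (some ⟨(i, j), hij⟩)
        rw [hm] at this
        exact this
  have h2 : sqn a * 2 ^ (Mk T a).rank = 2 ^ Fintype.card (Kp (2 * 1 + 1)) := by
    rw [sqn_eq hT a inj supp, fcard]
    exact rank_count (Mk T a)
  have h3 : (univ.filter fun φ : Option T → ZMod 2 =>
      ((Mk T a).transpose).mulVec φ = 0).card * 2 ^ (Mk T a).rank =
      2 ^ Fintype.card (Option T) := by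
    rw [← Matrix.rank_transpose, fcard]
    exact rank_count (Mk T a).transpose
  have h4 : Fintype.card (Kp (2 * 1 + 1)) = 4 := by
    rw [Fintype.card_option]
    rfl
  have h5 : Fintype.card (Option T) = T.card + 1 := by
    rw [Fintype.card_option, Fintype.card_coe]
  rw [h4] at h2
  rw [h5] at h3
  have h6 : 0 < 2 ^ (Mk T a).rank := by positivity
  have h7 : (16 * (univ.filter fun φ : Option T → ZMod 2 =>
      (⟨1, hg1, a, inj, supp⟩ : Cr T).TT φ = 0).card) * 2 ^ (Mk T a).rank =
      (2 ^ (T.card + 1) * sqn a) * 2 ^ (Mk T a).rank := by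
    rw [h1, mul_assoc, mul_assoc, h3, h2]
    ring
  exact Nat.eq_of_mul_eq_mul_right h6 h7

end Q137.MX
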